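import Pool.Agent.MP_c903c4_nt.K.Avg
import Pool.Agent.MP_c903c4_nt.K.BSG
import Pool.Agent.MP_c903c4_nt.K.BT
import Pool.Agent.MP_c903c4_nt.K.Clock
import Pool.Agent.MP_c903c4_nt.K.Fou
import Pool.Agent.MP_c903c4_nt.K.Glob
import Pool.Agent.MP_c903c4_nt.K.Grow
import Pool.Agent.MP_c903c4_nt.K.Share
import Pool.Agent.MP_c903c4_nt.K.Smooth
import Pool.Agent.MP_c903c4_nt.K.Spec
import Pool.Agent.MP_c903c4_nt.K.TailB

open Filter Topology

namespace Pool.Agent.Results.MP_c903c4_nt.BoundedPowers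

open Pool.Agent.MP_c903c4_nt.K in
theorem result : ∃ k : ℕ, Tendsto (fun x : ℕ => (Set.ncard {n : ℕ | n < x ∧
    ¬ ∃ (a b d : ℕ) (c : Fin k → ℕ), n = a ^ 2 + b ^ 2 + (∑ i, 3 ^ c i) + 5 ^ d} : ℝ) / x)
    atTop (𝓝 0) :=
  stFin (stLoc (stShare (stSpec stBSG stGrow stAvg stInv stFou))
    (stClock stMer stTailA stTailI (stTailB (stSmooth stBT))))

end Pool.Agent.Results.MP_c903c4_nt.BoundedPowers
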