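import Pool.Agent.MP_c903c4_nt.X.Num

open Filter

namespace Pool.Agent.Results.MP_c903c4_nt.ExplicitDensity

theorem result : ∀ᶠ x : ℕ in atTop,
    100000 * Set.ncard {n : ℕ | n < x ∧ ¬ ∃ a b c d : ℕ, n = a ^ 2 + b ^ 2 + 3 ^ c + 5 ^ d} ≤ x := by
  classical
  refine Pool.Agent.MP_c903c4_nt.X.final.mono fun x hx => ?_
  have e : {n : ℕ | n < x ∧ ¬ ∃ a b c d : ℕ, n = a ^ 2 + b ^ 2 + 3 ^ c + 5 ^ d} =
      ((Finset.range x).filter fun n => ¬ Pool.Agent.MP_c903c4_nt.Rep n : Finset ℕ) := by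
    ext n
    simp [Pool.Agent.MP_c903c4_nt.Rep]
  rw [e, Set.ncard_coe_finset]
  have h : (100000 : ℝ) *
      ((Finset.range x).filter fun n => ¬ Pool.Agent.MP_c903c4_nt.Rep n).card ≤ x := by
    linarith
  exact_mod_cast h

end Pool.Agent.Results.MP_c903c4_nt.ExplicitDensity
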