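import Pool.Agent.Mg.Fc903c4.G4d5dea

open Filter

namespace Pool.Agent.Results.MP_c903c4_nt.LocalGlobal

theorem result (ε : ℝ) (hε : 0 < ε) : ∃ q : ℕ, 0 < q ∧ ∀ᶠ x : ℕ in atTop,
    (Set.ncard {n : ℕ | n < x ∧
      (∃ a b c d : ℕ, q ≤ c ∧ n ≡ a ^ 2 + b ^ 2 + 3 ^ c + 5 ^ d [MOD q]) ∧
      ¬ ∃ a b c d : ℕ, n = a ^ 2 + b ^ 2 + 3 ^ c + 5 ^ d} : ℝ) ≤ ε * x := by
  classical
  obtain ⟨q, hq, h⟩ := Pool.Agent.MP_c903c4_nt.main hε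
  refine ⟨q, hq, h.mono fun x hx => le_trans (le_of_eq ?_) hx⟩
  rw [← Set.ncard_coe_finset]
  congr 2
  ext n
  simp [Pool.Agent.MP_c903c4_nt.Loc, Pool.Agent.MP_c903c4_nt.Rep]

end Pool.Agent.Results.MP_c903c4_nt.LocalGlobal
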