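import Pool.Agent.Mg.Fc903c4.G4d5dea
import Pool.Agent.Mg.Fc903c4.G2b1d8e

open Filter Topology

namespace Pool.Agent.Results.MP_c903c4_nt.WieferichDensity

theorem result (hD : ∀ p : ℕ, p.Prime → p % 4 = 3 →
      ¬ (p ^ 2 ∣ 3 ^ (p - 1) - 1 ∧ p ^ 2 ∣ 5 ^ (p - 1) - 1)) :
    Tendsto (fun x : ℕ => (Set.ncard {n : ℕ | n < x ∧
      ¬ ∃ a b c d : ℕ, n = a ^ 2 + b ^ 2 + 3 ^ c + 5 ^ d} : ℝ) / x) atTop (𝓝 0) := by
  classical
  refine tendsto_order.2 ⟨fun a ha => Eventually.of_forall fun x => ha.trans_le (by positivity),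
    fun ε hε => ?_⟩
  obtain ⟨q, hq, h⟩ := Pool.Agent.MP_c903c4_nt.main (half_pos hε)
  filter_upwards [h, eventually_gt_atTop 0] with x hx h0
  have h1 : (0 : ℝ) < x := by exact_mod_cast h0
  rw [div_lt_iff₀ h1]
  refine lt_of_le_of_lt (le_trans (le_of_eq ?_) hx) (by nlinarith)
  rw [← Set.ncard_coe_finset]
  congr 2
  ext n
  simp [Pool.Agent.MP_c903c4_nt.Rep, Pool.Agent.MP_c903c4_nt.loc_all hD hq n]

end Pool.Agent.Results.MP_c903c4_nt.WieferichDensity
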